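import Pool.Agent.W_MP_abf9c7_co.Graph

/-!
Asymptotics of the generalized Ohba numbers.
-/

namespace Pool.Agent.W_MP_abf9c7_co

open Finset Filter

/-- numeric condition guaranteeing choosability -/
lemma choosable_of_large (s t a b : ℕ) (ha : 1 ≤ a) (ht1 : 2 * (s + 1) ≤ t) (ht2 : a ≤ t)
    (hb : b * (a.choose (s + 1) * a ^ (s + 1) * ((s + 1).factorial * (4 * a) ^ (s + 1)))
      < t ^ (2 * (s + 1))) :
    Choosable (ohbaGraph t a b) (t + 2 + s) := by
  set m := s + 1 with hm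
  have hN1 : 1 ≤ t / a := (Nat.one_le_div_iff ha).mpr ht2
  apply choosable_of_core s t a b (t / a) (by omega) (by omega) hN1 (Nat.mul_div_le t a)
  rw [← hm]
  have h1 : t ^ m ≤ 2 ^ m * (m.factorial * t.choose m) := by
    have h2 := Nat.pow_sub_le_descFactorial t m
    rw [Nat.descFactorial_eq_factorial_mul_choose] at h2
    calc t ^ m ≤ (2 * (t + 1 - m)) ^ m := Nat.pow_le_pow_left (by omega) m
      _ = 2 ^ m * (t + 1 - m) ^ m := by rw [mul_pow]
      _ ≤ 2 ^ m * (m.factorial * t.choose m) := Nat.mul_le_mul_left _ h2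
  have h2 : t ^ m ≤ (2 * a) ^ m * (t / a) ^ m := by
    rw [← mul_pow]
    apply Nat.pow_le_pow_left
    have h3 : t < a * (t / a) + a := by
      have := Nat.lt_mul_div_succ t ha
      rw [Nat.mul_succ] at this
      exact this
    have h4 : a * 1 ≤ a * (t / a) := Nat.mul_le_mul_left a hN1
    have h5 : 2 * a * (t / a) = a * (t / a) + a * (t / a) := by ring
    omega
  have h3 : t ^ (2 * m) ≤ (t.choose m * (t / a) ^ m) * (m.factorial * (4 * a) ^ m) := by
    calc t ^ (2 * m) = t ^ m * t ^ m := by rw [← pow_add]; congr 1; omega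
      _ ≤ (2 ^ m * (m.factorial * t.choose m)) * ((2 * a) ^ m * (t / a) ^ m) := Nat.mul_le_mul h1 h2
      _ = (t.choose m * (t / a) ^ m) * (m.factorial * (4 * a) ^ m) := by
          have : (4 * a) ^ m = 2 ^ m * (2 * a) ^ m := by rw [← mul_pow]; congr 1; ring
          rw [this]; ring
  have h4 : (b * a.choose m * a ^ m) * (m.factorial * (4 * a) ^ m)
      < (t.choose m * (t / a) ^ m) * (m.factorial * (4 * a) ^ m) := by
    calc (b * a.choose m * a ^ m) * (m.factorial * (4 * a) ^ m)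
        = b * (a.choose m * a ^ m * (m.factorial * (4 * a) ^ m)) := by ring
      _ < t ^ (2 * m) := hb
      _ ≤ _ := h3
  exact Nat.lt_of_mul_lt_mul_right h4

/-- The upper bound. -/
lemma ohba_upper (s a : ℕ) (ha : 1 ≤ a) : ∃ C : ℝ, 0 < C ∧ ∀ b : ℕ, 1 ≤ b →
    (ohbaNumber s a b : ℝ) ≤ C * (b : ℝ) ^ (1 / (2 * (s : ℝ) + 2)) ∧
    ∃ t, Choosable (ohbaGraph t a b) (t + 2 + s) := by
  set c0 : ℕ := a.choose (s + 1) * a ^ (s + 1) * ((s + 1).factorial * (4 * a) ^ (s + 1)) with hc0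
  set C1 : ℝ := (c0 : ℝ) + 2 * (s + 1) + a + 1 with hC1
  refine ⟨C1 + 1, by positivity, ?_⟩
  intro b hb
  set x : ℝ := (b : ℝ) ^ (1 / (2 * (s : ℝ) + 2)) with hx
  have hb1 : (1 : ℝ) ≤ b := by exact_mod_cast hb
  have hx1 : 1 ≤ x := Real.one_le_rpow hb1 (by positivity)
  have hxpow : x ^ (2 * (s + 1)) = b := by
    rw [hx, ← Real.rpow_natCast, ← Real.rpow_mul (by positivity)]
    have h1 : 1 / (2 * (s : ℝ) + 2) * ((2 * (s + 1) : ℕ) : ℝ) = 1 := by
      push_cast; field_simp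
    rw [h1, Real.rpow_one]
  have hc0r : (0 : ℝ) ≤ c0 := Nat.cast_nonneg _
  have hsr : (0 : ℝ) ≤ s := Nat.cast_nonneg _
  have har : (0 : ℝ) ≤ a := Nat.cast_nonneg _
  have hC1ge : 1 ≤ C1 := by rw [hC1]; linarith
  set t : ℕ := ⌈C1 * x⌉₊ with ht
  have htge : C1 * x ≤ t := Nat.le_ceil _
  have htle : (t : ℝ) ≤ C1 * x + 1 := (Nat.ceil_lt_add_one (by positivity)).le
  have htC1 : C1 ≤ t := by
    refine le_trans ?_ htge
    have := mul_le_mul_of_nonneg_left hx1 (show 0 ≤ C1 by linarith)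
    linarith
  have ht1 : 2 * (s + 1) ≤ t := by
    have : ((2 * (s + 1) : ℕ) : ℝ) ≤ t := by
      push_cast
      rw [hC1] at htC1
      linarith
    exact_mod_cast this
  have ht2 : a ≤ t := by
    have : (a : ℝ) ≤ t := by
      rw [hC1] at htC1
      linarith
    exact_mod_cast this
  have hbt : b * c0 < t ^ (2 * (s + 1)) := by
    have h1 : (b : ℝ) * c0 < (t : ℝ) ^ (2 * (s + 1)) := by
      have hC1c : (c0 : ℝ) < C1 := by rw [hC1]; linarith
      have h2 : C1 ≤ C1 ^ (2 * (s + 1)) := by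
        calc C1 = C1 ^ 1 := (pow_one _).symm
          _ ≤ C1 ^ (2 * (s + 1)) := pow_le_pow_right₀ hC1ge (by omega)
      have hb0 : (0 : ℝ) < b := by linarith
      calc (b : ℝ) * c0 < b * C1 := mul_lt_mul_of_pos_left hC1c hb0
        _ ≤ b * C1 ^ (2 * (s + 1)) := mul_le_mul_of_nonneg_left h2 hb0.le
        _ = (C1 * x) ^ (2 * (s + 1)) := by rw [mul_pow, hxpow]; ring
        _ ≤ (t : ℝ) ^ (2 * (s + 1)) := pow_le_pow_left₀ (by positivity) htge _
    exact_mod_cast h1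
  have hch : Choosable (ohbaGraph t a b) (t + 2 + s) := choosable_of_large s t a b ha ht1 ht2 hbt
  refine ⟨?_, t, hch⟩
  have h1 : ohbaNumber s a b ≤ t := Nat.sInf_le ((ohba_prop_iff s t a b ha hb).mpr hch)
  calc (ohbaNumber s a b : ℝ) ≤ t := by exact_mod_cast h1
    _ ≤ C1 * x + 1 := htle
    _ ≤ C1 * x + x := by linarith
    _ = (C1 + 1) * x := by ring

/-- The lower bound. -/
lemma ohba_lower (s a b : ℕ) (ha : s + 2 ≤ a) (hb : 1 ≤ b)
    (hne : ∃ t, Choosable (ohbaGraph t a b) (t + 2 + s)) :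
    (b : ℝ) ^ (1 / (2 * (s : ℝ) + 2)) - (s + 2) ≤ (ohbaNumber s a b : ℝ) := by
  have hmem : Choosable (ohbaGraph (ohbaNumber s a b) a b) (ohbaNumber s a b + 2 + s) := by
    rw [← ohba_prop_iff s _ a b (by omega) hb]
    obtain ⟨t, ht⟩ := hne
    exact Nat.sInf_mem (s := {t : ℕ | (listChromaticNumber (ohbaGraph t a b) : ℕ∞)
      ≤ (ohbaGraph t a b).chromaticNumber + (s : ℕ∞)})
      ⟨t, (ohba_prop_iff s t a b (by omega) hb).mpr ht⟩
  set t := ohbaNumber s a b with ht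
  have h1 : b < (t + 2 + s) ^ (2 * s + 2) := by
    by_contra hcon
    push Not at hcon
    exact not_choosable s t a b ha hcon hmem
  have h2 : (b : ℝ) ≤ ((t : ℝ) + 2 + s) ^ (2 * s + 2) := by exact_mod_cast h1.le
  have h3 : (b : ℝ) ^ (1 / (2 * (s : ℝ) + 2)) ≤ (t : ℝ) + 2 + s := by
    calc (b : ℝ) ^ (1 / (2 * (s : ℝ) + 2))
        ≤ (((t : ℝ) + 2 + s) ^ (2 * s + 2)) ^ (1 / (2 * (s : ℝ) + 2)) :=
          Real.rpow_le_rpow (by positivity) h2 (by positivity)
      _ = (t : ℝ) + 2 + s := by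
          rw [← Real.rpow_natCast, ← Real.rpow_mul (by positivity)]
          have h4 : ((2 * s + 2 : ℕ) : ℝ) * (1 / (2 * (s : ℝ) + 2)) = 1 := by
            push_cast; field_simp
          rw [h4, Real.rpow_one]
  linarith

/-- **Main theorem**: `τ_s(a,b) = Θ(b^{1/(2s+2)})` as `b → ∞` for every fixed `a ≥ s + 2`. -/
theorem ohba_theta (s a : ℕ) (ha : s + 2 ≤ a) :
    (fun b : ℕ => (ohbaNumber s a b : ℝ)) =Θ[atTop]
      (fun b : ℕ => (b : ℝ) ^ (1 / (2 * (s : ℝ) + 2))) := by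
  obtain ⟨C, hC0, hC⟩ := ohba_upper s a (by omega)
  constructor
  · apply Asymptotics.IsBigO.of_bound C
    filter_upwards [eventually_ge_atTop 1] with b hb
    rw [Real.norm_of_nonneg (by positivity), Real.norm_of_nonneg (by positivity)]
    exact (hC b hb).1
  · apply Asymptotics.IsBigO.of_bound 2
    have htend : Tendsto (fun b : ℕ => (b : ℝ) ^ (1 / (2 * (s : ℝ) + 2))) atTop atTop :=
      (tendsto_rpow_atTop (by positivity)).comp tendsto_natCast_atTop_atTop
    filter_upwards [eventually_ge_atTop 1, htend.eventually_ge_atTop (2 * ((s : ℝ) + 2))]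
      with b hb hbig
    rw [Real.norm_of_nonneg (by positivity), Real.norm_of_nonneg (by positivity)]
    have h1 := ohba_lower s a b ha hb (hC b hb).2
    linarith

end Pool.Agent.W_MP_abf9c7_co
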