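import Pool.Agent.W_MP_abf9c7_co.Core

/-!
The main combinatorial theorem: a list colouring of `K_t ∨ K_{a,b}` from lists of size
`t + m + 1`, provided `b` is at most of order `t^{2m}`.
-/

namespace Pool.Agent.W_MP_abf9c7_co

open Finset

/-- Averaging over the `m`-subsets `R` of `U`. -/
lemma exists_R {b : ℕ} (U : Finset ℕ) (m a : ℕ) (hm : m ≤ U.card) (LB : Fin b → Finset ℕ) :
    ∃ R ∈ U.powersetCard m,
      ((Finset.univ : Finset (Fin b)).filter
        (fun w => Disjoint R (LB w) ∧ (U \ LB w).card ≤ a)).card * (U.card.choose m)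
        ≤ b * a.choose m := by
  classical
  have hne : (U.powersetCard m).Nonempty := Finset.powersetCard_nonempty.mpr hm
  have h1 : ∑ R ∈ U.powersetCard m, ((Finset.univ : Finset (Fin b)).filter
        (fun w => Disjoint R (LB w) ∧ (U \ LB w).card ≤ a)).card * (U.card.choose m)
        ≤ ∑ R ∈ U.powersetCard m, b * a.choose m := by
    rw [← Finset.sum_mul, Finset.sum_const, Finset.card_powersetCard, smul_eq_mul, mul_comm]
    apply Nat.mul_le_mul_left
    have h2 : ∑ R ∈ U.powersetCard m, ((Finset.univ : Finset (Fin b)).filter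
        (fun w => Disjoint R (LB w) ∧ (U \ LB w).card ≤ a)).card
        = ∑ w : Fin b, ((U.powersetCard m).filter
          (fun R => Disjoint R (LB w) ∧ (U \ LB w).card ≤ a)).card := by
      simp_rw [Finset.card_filter]
      exact Finset.sum_comm
    rw [h2]
    calc ∑ w : Fin b, ((U.powersetCard m).filter
          (fun R => Disjoint R (LB w) ∧ (U \ LB w).card ≤ a)).card
        ≤ ∑ _w : Fin b, a.choose m := by
          apply Finset.sum_le_sum
          intro w _
          by_cases hw : (U \ LB w).card ≤ a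
          · calc ((U.powersetCard m).filter
                  (fun R => Disjoint R (LB w) ∧ (U \ LB w).card ≤ a)).card
                ≤ ((U \ LB w).powersetCard m).card := by
                  apply Finset.card_le_card
                  intro R hR
                  rw [Finset.mem_filter, Finset.mem_powersetCard] at hR
                  rw [Finset.mem_powersetCard]
                  refine ⟨?_, hR.1.2⟩
                  intro z hz
                  rw [Finset.mem_sdiff]
                  exact ⟨hR.1.1 hz, Finset.disjoint_left.mp hR.2.1 hz⟩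
              _ = (U \ LB w).card.choose m := Finset.card_powersetCard _ _
              _ ≤ a.choose m := Nat.choose_le_choose m hw
          · rw [Finset.filter_false_of_mem]
            · simp
            · intro R _ h; exact hw h.2
      _ = b * a.choose m := by simp
  exact Finset.exists_le_of_sum_le hne h1

theorem core (a t m N b : ℕ) (ht : 1 ≤ t) (hm : m ≤ t) (hN : 1 ≤ N) (haN : a * N ≤ t)
    (LK : Fin t → Finset ℕ) (LA : Fin a → Finset ℕ) (LB : Fin b → Finset ℕ)
    (hK : ∀ v, (LK v).card = t + m + 1) (hA : ∀ x, (LA x).card = t + m + 1)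
    (hB : ∀ w, (LB w).card = t + m + 1)
    (hb : b * a.choose m * a ^ m < t.choose m * N ^ m) :
    ∃ (cK : Fin t → ℕ) (cA : Fin a → ℕ) (cB : Fin b → ℕ),
      (∀ v, cK v ∈ LK v) ∧ (∀ x, cA x ∈ LA x) ∧ (∀ w, cB w ∈ LB w) ∧
      Function.Injective cK ∧ (∀ x v, cA x ≠ cK v) ∧ (∀ w v, cB w ≠ cK v) ∧
      (∀ w x, cB w ≠ cA x) := by
  classical
  -- Step 1: a base colouring of the clique
  obtain ⟨φ0, hφ0inj, hφ0⟩ := exists_injective_choice LK
    (fun i => by rw [Fintype.card_fin, hK]; omega)
  set U0 : Finset ℕ := Finset.univ.image φ0 with hU0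
  have hU0card : U0.card = t := by
    rw [hU0, Finset.card_image_of_injective _ hφ0inj, Finset.card_univ, Fintype.card_fin]
  -- Step 2: split of `A`
  set A0 : Finset (Fin a) := Finset.univ.filter (fun x => (LA x \ U0).card < N + m + 1) with hA0
  have hA0small : ∀ x ∈ A0, (U0 \ LA x).card ≤ N - 1 := by
    intro x hx
    rw [hA0, Finset.mem_filter] at hx
    have h1 := Finset.card_sdiff_add_card_inter (LA x) U0
    have h2 := Finset.card_sdiff_add_card_inter U0 (LA x)
    rw [Finset.inter_comm U0] at h2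
    rw [hA x] at h1
    rw [hU0card] at h2
    omega
  have hc0 : ∃ c0 ∈ U0, ∀ x ∈ A0, c0 ∈ LA x := by
    have h1 : (A0.biUnion (fun x => U0 \ LA x)).card < U0.card := by
      calc (A0.biUnion (fun x => U0 \ LA x)).card ≤ ∑ x ∈ A0, (U0 \ LA x).card :=
            Finset.card_biUnion_le
        _ ≤ ∑ _x ∈ A0, (N - 1) := Finset.sum_le_sum hA0small
        _ = A0.card * (N - 1) := by rw [Finset.sum_const, smul_eq_mul]
        _ < U0.card := by
            rw [hU0card]
            rcases Nat.eq_zero_or_pos A0.card with h | h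
            · rw [h]; omega
            · have h2 : A0.card ≤ a := by
                have := Finset.card_le_univ A0
                rwa [Fintype.card_fin] at this
              have h3 : A0.card * (N - 1) < A0.card * N := by
                apply Nat.mul_lt_mul_of_pos_left _ h
                omega
              have h4 : A0.card * N ≤ a * N := Nat.mul_le_mul_right N h2
              omega
    obtain ⟨c0, hc0U, hc0n⟩ := Finset.exists_mem_notMem_of_card_lt_card h1
    refine ⟨c0, hc0U, ?_⟩
    intro x hx
    by_contra hcon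
    apply hc0n
    rw [Finset.mem_biUnion]
    exact ⟨x, hx, Finset.mem_sdiff.mpr ⟨hc0U, hcon⟩⟩
  obtain ⟨c0, hc0U, hc0A⟩ := hc0
  obtain ⟨v0, -, hv0⟩ := Finset.mem_image.mp hc0U
  -- Step 3: free the colour `c0`
  have hy0 : ∃ y0 ∈ LK v0, y0 ∉ U0 := by
    apply Finset.exists_mem_notMem_of_card_lt_card
    rw [hU0card, hK]; omega
  obtain ⟨y0, hy0L, hy0U⟩ := hy0
  set φ1 : Fin t → ℕ := Function.update φ0 v0 y0 with hφ1
  have hφ0U : ∀ v, φ0 v ∈ U0 := fun v => Finset.mem_image_of_mem _ (Finset.mem_univ v)
  have hφ1inj : Function.Injective φ1 := by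
    intro v v' h
    by_cases h1 : v = v0
    · by_cases h2 : v' = v0
      · rw [h1, h2]
      · rw [hφ1, h1, Function.update_self, Function.update_of_ne h2] at h
        exact absurd (h ▸ hφ0U v') hy0U
    · by_cases h2 : v' = v0
      · rw [hφ1, h2, Function.update_self, Function.update_of_ne h1] at h
        exact absurd (h ▸ hφ0U v) hy0U
      · rw [hφ1, Function.update_of_ne h1, Function.update_of_ne h2] at h
        exact hφ0inj h
  have hφ1L : ∀ v, φ1 v ∈ LK v := by
    intro v
    by_cases h1 : v = v0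
    · rw [hφ1, h1, Function.update_self]; exact hy0L
    · rw [hφ1, Function.update_of_ne h1]; exact hφ0 v
  set U1 : Finset ℕ := Finset.univ.image φ1 with hU1
  have hφ1U : ∀ v, φ1 v ∈ U1 := fun v => Finset.mem_image_of_mem _ (Finset.mem_univ v)
  have hU1card : U1.card = t := by
    rw [hU1, Finset.card_image_of_injective _ hφ1inj, Finset.card_univ, Fintype.card_fin]
  have hc0U1 : c0 ∉ U1 := by
    intro h
    obtain ⟨v, -, hv⟩ := Finset.mem_image.mp h
    by_cases h1 : v = v0
    · rw [hφ1, h1, Function.update_self] at hv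
      exact hy0U (hv ▸ hc0U)
    · rw [hφ1, Function.update_of_ne h1] at hv
      exact h1 (hφ0inj (hv.trans hv0.symm))
  have hU1sub : U1 ⊆ insert y0 U0 := by
    intro z hz
    obtain ⟨v, -, hv⟩ := Finset.mem_image.mp hz
    by_cases h1 : v = v0
    · rw [hφ1, h1, Function.update_self] at hv
      rw [← hv]; exact Finset.mem_insert_self _ _
    · rw [hφ1, Function.update_of_ne h1] at hv
      rw [← hv]; exact Finset.mem_insert_of_mem (hφ0U v)
  -- Step 4: the set `R` of colours to be released
  obtain ⟨R, hR, hRcount⟩ := exists_R U1 m a (by rw [hU1card]; exact hm) LB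
  rw [Finset.mem_powersetCard] at hR
  obtain ⟨hRU, hRcard⟩ := hR
  rw [hU1card] at hRcount
  set 𝒮 := ((Finset.univ : Finset (Fin b)).filter
        (fun w => Disjoint R (LB w) ∧ (U1 \ LB w).card ≤ a)) with h𝒮
  -- Step 5: recolour the vertices with colours in `R`
  have hKRcard : Fintype.card {v : Fin t // φ1 v ∈ R} = m := by
    rw [Fintype.card_subtype, ← hRcard]
    apply Finset.card_bij (fun v _ => φ1 v)
    · intro v hv; exact (Finset.mem_filter.mp hv).2
    · intro v _ v' _ h; exact hφ1inj h
    · intro z hz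
      obtain ⟨v, -, hv⟩ := Finset.mem_image.mp (hRU hz)
      exact ⟨v, Finset.mem_filter.mpr ⟨Finset.mem_univ v, by rw [hv]; exact hz⟩, hv⟩
  obtain ⟨y, hyinj, hyL⟩ := exists_injective_choice
    (fun v : {v : Fin t // φ1 v ∈ R} => LK v.1 \ (insert c0 U1))
    (fun v => by
      rw [hKRcard]
      have h1 := Finset.le_card_sdiff (insert c0 U1) (LK v.1)
      have h2 : (insert c0 U1).card = t + 1 := by
        rw [Finset.card_insert_of_notMem hc0U1, hU1card]
      rw [hK, h2] at h1
      omega)
  set φ2 : Fin t → ℕ := fun v => if h : φ1 v ∈ R then y ⟨v, h⟩ else φ1 v with hφ2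
  have hφ2R : ∀ v (h : φ1 v ∈ R), φ2 v = y ⟨v, h⟩ := fun v h => by rw [hφ2]; exact dif_pos h
  have hφ2n : ∀ v, φ1 v ∉ R → φ2 v = φ1 v := fun v h => by rw [hφ2]; exact dif_neg h
  have hyU : ∀ v, y v ∉ U1 := fun v h =>
    (Finset.mem_sdiff.mp (hyL v)).2 (Finset.mem_insert_of_mem h)
  have hyc : ∀ v, y v ≠ c0 := fun v h =>
    (Finset.mem_sdiff.mp (hyL v)).2 (by rw [h]; exact Finset.mem_insert_self _ _)
  have hφ2inj : Function.Injective φ2 := by
    intro v v' h
    by_cases h1 : φ1 v ∈ R
    · by_cases h2 : φ1 v' ∈ R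
      · rw [hφ2R v h1, hφ2R v' h2] at h
        have := hyinj h
        exact congrArg Subtype.val this
      · rw [hφ2R v h1, hφ2n v' h2] at h
        exact absurd (h ▸ hφ1U v') (hyU _)
    · by_cases h2 : φ1 v' ∈ R
      · rw [hφ2n v h1, hφ2R v' h2] at h
        exact absurd (h ▸ hφ1U v) (hyU _)
      · rw [hφ2n v h1, hφ2n v' h2] at h
        exact hφ1inj h
  have hφ2L : ∀ v, φ2 v ∈ LK v := by
    intro v
    by_cases h1 : φ1 v ∈ R
    · rw [hφ2R v h1]; exact (Finset.mem_sdiff.mp (hyL ⟨v, h1⟩)).1
    · rw [hφ2n v h1]; exact hφ1L v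
  set Yim : Finset ℕ := Finset.univ.image y with hYim
  have hYimcard : Yim.card ≤ m := by
    rw [← hKRcard]; exact Finset.card_image_le
  set Wc : Finset ℕ := Finset.univ.image φ2 with hWc
  have hWcard : Wc.card = t := by
    rw [hWc, Finset.card_image_of_injective _ hφ2inj, Finset.card_univ, Fintype.card_fin]
  have hWsub : ∀ z ∈ Wc, (z ∈ U1 ∧ z ∉ R) ∨ z ∈ Yim := by
    intro z hz
    obtain ⟨v, -, hv⟩ := Finset.mem_image.mp hz
    by_cases h1 : φ1 v ∈ R
    · right
      rw [hφ2R v h1] at hv
      rw [← hv]; exact Finset.mem_image_of_mem _ (Finset.mem_univ _)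
    · left
      rw [hφ2n v h1] at hv
      rw [← hv]; exact ⟨hφ1U v, h1⟩
  have hYimU : ∀ z ∈ Yim, z ∉ U1 := by
    intro z hz
    obtain ⟨v, -, hv⟩ := Finset.mem_image.mp hz
    rw [← hv]; exact hyU v
  have hYimc : ∀ z ∈ Yim, z ≠ c0 := by
    intro z hz
    obtain ⟨v, -, hv⟩ := Finset.mem_image.mp hz
    rw [← hv]; exact hyc v
  have hc0W : c0 ∉ Wc := by
    intro h
    rcases hWsub c0 h with h1 | h1
    · exact hc0U1 h1.1
    · exact hYimc c0 h1 rfl
  have hWR : ∀ z ∈ R, z ∉ Wc := by
    intro z hz h
    rcases hWsub z h with h1 | h1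
    · exact h1.2 hz
    · exact hYimU z h1 (hRU hz)
  -- Step 6: the lists available for `A1`
  set A1 : Finset (Fin a) := Finset.univ.filter (fun x => ¬ (LA x \ U0).card < N + m + 1) with hA1
  set Y : Fin a → Finset ℕ := fun x => (LA x \ U0) \ (insert y0 Yim) with hY
  have hYcard : ∀ x ∈ A1, N ≤ (Y x).card := by
    intro x hx
    rw [hA1, Finset.mem_filter] at hx
    have h1 := Finset.le_card_sdiff (insert y0 Yim) (LA x \ U0)
    have h2 : (insert y0 Yim).card ≤ m + 1 := by
      have := Finset.card_insert_le y0 Yim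
      omega
    have h3 : (Y x).card = ((LA x \ U0) \ (insert y0 Yim)).card := rfl
    omega
  -- Step 7: avoid the dangerous lists
  have hT : ∀ w, ∃ T ⊆ LB w \ (insert c0 Wc), T.card = m := by
    intro w
    apply Finset.exists_subset_card_eq
    have h1 := Finset.le_card_sdiff (insert c0 Wc) (LB w)
    have h2 : (insert c0 Wc).card = t + 1 := by
      rw [Finset.card_insert_of_notMem hc0W, hWcard]
    rw [hB, h2] at h1
    omega
  choose T hTsub hTcard using hT
  have hsum : ∑ w ∈ 𝒮, ((A1.card : ℝ) / N) ^ (T w).card < 1 := by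
    have hNr : (0 : ℝ) < N := by exact_mod_cast hN
    have hchoose : 0 < t.choose m := Nat.choose_pos hm
    have h1 : 𝒮.card * a ^ m < N ^ m := by
      have h2 : 𝒮.card * a ^ m * t.choose m ≤ b * a.choose m * a ^ m := by
        calc 𝒮.card * a ^ m * t.choose m = (𝒮.card * t.choose m) * a ^ m := by ring
          _ ≤ (b * a.choose m) * a ^ m := Nat.mul_le_mul_right _ hRcount
      have h3 : 𝒮.card * a ^ m * t.choose m < N ^ m * t.choose m := by
        calc 𝒮.card * a ^ m * t.choose m ≤ b * a.choose m * a ^ m := h2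
          _ < t.choose m * N ^ m := hb
          _ = N ^ m * t.choose m := mul_comm _ _
      exact Nat.lt_of_mul_lt_mul_right h3
    have h4 : (A1.card : ℝ) ≤ a := by
      have := Finset.card_le_univ A1
      rw [Fintype.card_fin] at this
      exact_mod_cast this
    calc ∑ w ∈ 𝒮, ((A1.card : ℝ) / N) ^ (T w).card
        ≤ ∑ _w ∈ 𝒮, ((a : ℝ) / N) ^ m := by
          apply Finset.sum_le_sum; intro w _
          rw [hTcard w]
          apply pow_le_pow_left₀ (by positivity)
          exact div_le_div_of_nonneg_right h4 hNr.le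
      _ = (𝒮.card * (a : ℝ) ^ m) / (N : ℝ) ^ m := by
          rw [Finset.sum_const, nsmul_eq_mul, div_pow]; ring
      _ < 1 := by
          rw [div_lt_one (by positivity)]
          exact_mod_cast h1
  obtain ⟨q, hqY, hqT⟩ := exists_choice 𝒮 N hN Y A1 hYcard T hsum
  -- Step 8: the colouring of `A`
  set cA : Fin a → ℕ := fun x => if x ∈ A1 then q x else c0 with hcA
  have hcA1 : ∀ x ∈ A1, cA x = q x := fun x hx => by rw [hcA]; exact if_pos hx
  have hcA0 : ∀ x, x ∉ A1 → cA x = c0 := fun x hx => by rw [hcA]; exact if_neg hx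
  have hnotA1 : ∀ x, x ∉ A1 → x ∈ A0 := by
    intro x hx
    rw [hA0, Finset.mem_filter]
    refine ⟨Finset.mem_univ x, ?_⟩
    by_contra hcon
    exact hx (Finset.mem_filter.mpr ⟨Finset.mem_univ x, hcon⟩)
  have hcAL : ∀ x, cA x ∈ LA x := by
    intro x
    by_cases hx : x ∈ A1
    · rw [hcA1 x hx]
      have := hqY x hx
      rw [hY] at this
      exact (Finset.mem_sdiff.mp (Finset.mem_sdiff.mp this).1).1
    · rw [hcA0 x hx]; exact hc0A x (hnotA1 x hx)
  have hqU1 : ∀ x ∈ A1, q x ∉ U1 := by
    intro x hx h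
    have h1 := hqY x hx
    rw [hY] at h1
    obtain ⟨h2, h3⟩ := Finset.mem_sdiff.mp h1
    obtain ⟨h4, h5⟩ := Finset.mem_sdiff.mp h2
    rcases Finset.mem_insert.mp (hU1sub h) with h6 | h6
    · exact h3 (by rw [h6]; exact Finset.mem_insert_self _ _)
    · exact h5 h6
  have hqW : ∀ x ∈ A1, q x ∉ Wc := by
    intro x hx h
    rcases hWsub _ h with h1 | h1
    · exact hqU1 x hx h1.1
    · have h2 := hqY x hx
      rw [hY] at h2
      exact (Finset.mem_sdiff.mp h2).2 (Finset.mem_insert_of_mem h1)
  have hcAW : ∀ x, cA x ∉ Wc := by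
    intro x
    by_cases hx : x ∈ A1
    · rw [hcA1 x hx]; exact hqW x hx
    · rw [hcA0 x hx]; exact hc0W
  have hcAU1 : ∀ x, cA x ∉ U1 := by
    intro x
    by_cases hx : x ∈ A1
    · rw [hcA1 x hx]; exact hqU1 x hx
    · rw [hcA0 x hx]; exact hc0U1
  -- Step 9: every `B`-vertex has a free colour
  have hfree : ∀ w, ∃ z ∈ LB w, z ∉ Wc ∧ ∀ x, cA x ≠ z := by
    intro w
    by_cases hw : w ∈ 𝒮
    · have h1 := hqT w hw
      rw [Finset.not_subset] at h1
      obtain ⟨z, hzT, hzq⟩ := h1
      have h2 := Finset.mem_sdiff.mp (hTsub w hzT)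
      refine ⟨z, h2.1, fun h => h2.2 (Finset.mem_insert_of_mem h), ?_⟩
      intro x hx
      by_cases hxA : x ∈ A1
      · rw [hcA1 x hxA] at hx
        exact hzq (Finset.mem_image.mpr ⟨x, hxA, hx⟩)
      · rw [hcA0 x hxA] at hx
        exact h2.2 (by rw [← hx]; exact Finset.mem_insert_self _ _)
    · rw [h𝒮, Finset.mem_filter] at hw
      push Not at hw
      by_cases hdis : Disjoint R (LB w)
      · -- many colours of `U1` outside the list
        have hbig := hw (Finset.mem_univ w) hdis
        by_contra hcon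
        push Not at hcon
        -- the list is covered by `Wc ∪ cA`
        have hcov : LB w ⊆ (U1 ∩ LB w) ∪ (Yim ∪ Finset.univ.image cA) := by
          intro z hz
          by_cases hzW : z ∈ Wc
          · rcases hWsub z hzW with h1 | h1
            · exact Finset.mem_union_left _ (Finset.mem_inter.mpr ⟨h1.1, hz⟩)
            · exact Finset.mem_union_right _ (Finset.mem_union_left _ h1)
          · obtain ⟨x, hx⟩ := hcon z hz hzW
            exact Finset.mem_union_right _ (Finset.mem_union_right _
              (Finset.mem_image.mpr ⟨x, Finset.mem_univ x, hx⟩))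
        have h1 := Finset.card_le_card hcov
        have h2 := Finset.card_union_le (U1 ∩ LB w) (Yim ∪ Finset.univ.image cA)
        have h3 := Finset.card_union_le Yim (Finset.univ.image cA)
        have h4 : (Finset.univ.image cA).card ≤ a := by
          have := Finset.card_image_le (s := (Finset.univ : Finset (Fin a))) (f := cA)
          rwa [Finset.card_univ, Fintype.card_fin] at this
        have h5 := Finset.card_sdiff_add_card_inter U1 (LB w)
        rw [hB w] at h1
        rw [hU1card] at h5
        omega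
      · rw [Finset.not_disjoint_iff] at hdis
        obtain ⟨z, hzR, hzL⟩ := hdis
        refine ⟨z, hzL, hWR z hzR, ?_⟩
        intro x hx
        exact hcAU1 x (by rw [hx]; exact hRU hzR)
  choose cB hcBL hcBW hcBA using hfree
  refine ⟨φ2, cA, cB, hφ2L, hcAL, hcBL, hφ2inj, ?_, ?_, ?_⟩
  · intro x v h
    exact hcAW x (by rw [h]; exact Finset.mem_image_of_mem _ (Finset.mem_univ v))
  · intro w v h
    exact hcBW w (by rw [h]; exact Finset.mem_image_of_mem _ (Finset.mem_univ v))
  · intro w x h
    exact hcBA w x h.symm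

end Pool.Agent.W_MP_abf9c7_co
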