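import Mathlib

/-!
Combinatorial core: list colourings of `K_t ∨ K_{a,b}`.
-/

namespace Pool.Agent.W_MP_abf9c7_co

open Finset

/-- Injective choice from large sets. -/
lemma exists_injective_choice {ι : Type*} [Fintype ι] [DecidableEq ι] (L : ι → Finset ℕ)
    (h : ∀ i, Fintype.card ι ≤ (L i).card) :
    ∃ f : ι → ℕ, Function.Injective f ∧ ∀ i, f i ∈ L i := by
  apply (Finset.all_card_le_biUnion_card_iff_exists_injective L).mp
  intro J
  rcases J.eq_empty_or_nonempty with hJ | ⟨i, hi⟩
  · simp [hJ]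
  · calc J.card ≤ Fintype.card ι := Finset.card_le_univ J
      _ ≤ (L i).card := h i
      _ ≤ (J.biUnion L).card := Finset.card_le_card (Finset.subset_biUnion_of_mem L hi)

lemma pow_step (j e : ℕ) : (j : ℝ) ^ e + e * (j : ℝ) ^ (e - 1) ≤ ((j : ℝ) + 1) ^ e := by
  induction e with
  | zero => simp
  | succ e ih =>
    have hj : (0 : ℝ) ≤ j := Nat.cast_nonneg j
    rcases Nat.eq_zero_or_pos e with he | he
    · subst he; simp
    · have h1 : (j : ℝ) ^ e = j * (j : ℝ) ^ (e - 1) := by
        rw [← pow_succ']; congr 1; omega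
      have h2 : ((j : ℝ) + 1) ^ (e + 1) = ((j : ℝ) + 1) * ((j : ℝ) + 1) ^ e := pow_succ' _ _
      rw [h2]
      have h3 : ((j : ℝ) + 1) * ((j : ℝ) ^ e + e * (j : ℝ) ^ (e - 1)) ≤ ((j : ℝ) + 1) * ((j : ℝ) + 1) ^ e :=
        mul_le_mul_of_nonneg_left ih (by positivity)
      refine le_trans ?_ h3
      have h4 : 0 ≤ (e : ℝ) * (j : ℝ) ^ (e - 1) := by positivity
      have h5 : e + 1 - 1 = e := by omega
      rw [h5, pow_succ', h1]
      push_cast
      nlinarith

/-- Derandomized choice: pick one element from each `Y x`, `x ∈ X`, covering none of the `T w`. -/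
lemma exists_choice {ι W : Type*} [DecidableEq ι] (𝒮 : Finset W) (N : ℕ) (hN : 0 < N)
    (Y : ι → Finset ℕ) (X : Finset ι) :
    (∀ x ∈ X, N ≤ (Y x).card) → ∀ (T : W → Finset ℕ),
    (∑ w ∈ 𝒮, ((X.card : ℝ) / N) ^ (T w).card < 1) →
    ∃ q : ι → ℕ, (∀ x ∈ X, q x ∈ Y x) ∧ ∀ w ∈ 𝒮, ¬ T w ⊆ X.image q := by
  induction X using Finset.induction_on with
  | empty =>
    intro _ T h
    refine ⟨fun _ => 0, by simp, ?_⟩
    intro w hw hsub
    simp only [Finset.image_empty, Finset.subset_empty] at hsub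
    have h1 : ((((∅ : Finset ι).card : ℝ) / N) ^ (T w).card)
        ≤ ∑ w ∈ 𝒮, ((((∅ : Finset ι).card : ℝ) / N) ^ (T w).card) :=
      Finset.single_le_sum (f := fun w => ((((∅ : Finset ι).card : ℝ) / N) ^ (T w).card))
        (fun i _ => by positivity) hw
    rw [hsub] at h1
    simp only [Finset.card_empty, pow_zero] at h1 h
    linarith
  | insert x X hx ih =>
    intro hY T h
    have hYx : N ≤ (Y x).card := hY x (Finset.mem_insert_self x X)
    have hYX : ∀ x' ∈ X, N ≤ (Y x').card := fun x' hx' => hY x' (Finset.mem_insert_of_mem hx')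
    have hNr : (0 : ℝ) < N := by exact_mod_cast hN
    have hYr : (N : ℝ) ≤ (Y x).card := by exact_mod_cast hYx
    have hY0 : (0 : ℝ) < (Y x).card := lt_of_lt_of_le hNr hYr
    set ρ : ℝ := (X.card : ℝ) / N with hρ
    have hρ0 : 0 ≤ ρ := by positivity
    rw [Finset.card_insert_of_notMem hx] at h
    -- per-`w` averaging
    have hw : ∀ w, ∑ y ∈ Y x, ρ ^ ((T w).erase y).card
        ≤ (Y x).card * (((X.card + 1 : ℕ) : ℝ) / N) ^ (T w).card := by
      intro w
      set e := (T w).card with he
      set h' := ((Y x) ∩ (T w)).card with hh'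
      have hsplit : ∑ y ∈ Y x, ρ ^ ((T w).erase y).card
          = ((Y x).card - h' : ℝ) * ρ ^ e + h' * ρ ^ (e - 1) := by
        have h1 : ∑ y ∈ Y x, ρ ^ ((T w).erase y).card
            = ∑ y ∈ Y x, if y ∈ T w then ρ ^ (e - 1) else ρ ^ e := by
          apply Finset.sum_congr rfl; intro y _
          by_cases hy : y ∈ T w
          · rw [if_pos hy, Finset.card_erase_of_mem hy]
          · rw [if_neg hy, Finset.erase_eq_of_notMem hy]
        rw [h1, Finset.sum_ite, Finset.sum_const, Finset.sum_const, nsmul_eq_mul, nsmul_eq_mul]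
        have h2 : ((Y x).filter (fun y => y ∈ T w)) = (Y x) ∩ (T w) := by
          ext y; simp
        have h3 : (((Y x).filter (fun y => ¬ y ∈ T w)).card : ℝ) = (Y x).card - h' := by
          have h4 := Finset.card_filter_add_card_filter_not (s := Y x) (fun y => y ∈ T w)
          rw [h2, ← hh'] at h4
          have h5 : ((h' + ((Y x).filter (fun y => ¬ y ∈ T w)).card : ℕ) : ℝ) = (Y x).card := by
            rw [h4]
          push_cast at h5
          linarith
        rw [h3, h2]; ring
      rw [hsplit]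
      have hle : (h' : ℝ) ≤ (Y x).card * (e / N) := by
        have h1 : (h' : ℝ) ≤ e := by
          exact_mod_cast Finset.card_le_card Finset.inter_subset_right
        calc (h' : ℝ) ≤ e := h1
          _ = N * (e / N) := by field_simp
          _ ≤ (Y x).card * (e / N) := mul_le_mul_of_nonneg_right hYr (by positivity)
      have hpow : ρ ^ e + (e / N) * ρ ^ (e - 1) ≤ (((X.card + 1 : ℕ) : ℝ) / N) ^ e := by
        rcases Nat.eq_zero_or_pos e with he0 | he0
        · rw [he0]; simp
        · have h1 := pow_step X.card e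
          have h2 : ρ ^ e + (e / N) * ρ ^ (e - 1)
              = ((X.card : ℝ) ^ e + e * (X.card : ℝ) ^ (e - 1)) / (N : ℝ) ^ e := by
            rw [hρ, div_pow, div_pow]
            have h3 : (N : ℝ) ^ e = N * (N : ℝ) ^ (e - 1) := by
              rw [← pow_succ']; congr 1; omega
            rw [h3]
            field_simp
          rw [h2, div_pow]
          push_cast
          exact div_le_div_of_nonneg_right h1 (by positivity)
      calc ((Y x).card - h' : ℝ) * ρ ^ e + h' * ρ ^ (e - 1)
          ≤ (Y x).card * ρ ^ e + ((Y x).card * (e / N)) * ρ ^ (e - 1) := by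
            have h1 : 0 ≤ (h' : ℝ) * ρ ^ e := by positivity
            have h2 := mul_le_mul_of_nonneg_right hle (show 0 ≤ ρ ^ (e - 1) by positivity)
            nlinarith
        _ = (Y x).card * (ρ ^ e + (e / N) * ρ ^ (e - 1)) := by ring
        _ ≤ (Y x).card * (((X.card + 1 : ℕ) : ℝ) / N) ^ e :=
            mul_le_mul_of_nonneg_left hpow hY0.le
    have havg : ∑ y ∈ Y x, ∑ w ∈ 𝒮, ρ ^ ((T w).erase y).card < ∑ y ∈ Y x, (1 : ℝ) := by
      rw [Finset.sum_comm, Finset.sum_const, nsmul_eq_mul, mul_one]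
      calc ∑ w ∈ 𝒮, ∑ y ∈ Y x, ρ ^ ((T w).erase y).card
          ≤ ∑ w ∈ 𝒮, (Y x).card * (((X.card + 1 : ℕ) : ℝ) / N) ^ (T w).card :=
            Finset.sum_le_sum (fun w _ => hw w)
        _ = (Y x).card * ∑ w ∈ 𝒮, (((X.card + 1 : ℕ) : ℝ) / N) ^ (T w).card := by
            rw [Finset.mul_sum]
        _ < (Y x).card * 1 := mul_lt_mul_of_pos_left h hY0
        _ = (Y x).card := mul_one _
    obtain ⟨y, hy, hylt⟩ := Finset.exists_lt_of_sum_lt havg
    obtain ⟨q, hq1, hq2⟩ := ih hYX (fun w => (T w).erase y) hylt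
    refine ⟨Function.update q x y, ?_, ?_⟩
    · intro x' hx'
      by_cases hxx : x' = x
      · rw [hxx, Function.update_self]; exact hy
      · rw [Function.update_of_ne hxx]
        exact hq1 x' (Finset.mem_of_mem_insert_of_ne hx' hxx)
    · intro w hwS hsub
      apply hq2 w hwS
      intro z hz
      obtain ⟨hzy, hzT⟩ := Finset.mem_erase.mp hz
      have hz2 := hsub hzT
      rw [Finset.mem_image] at hz2 ⊢
      obtain ⟨x', hx', hqx'⟩ := hz2
      by_cases hxx : x' = x
      · rw [hxx, Function.update_self] at hqx'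
        exact absurd hqx'.symm hzy
      · rw [Function.update_of_ne hxx] at hqx'
        exact ⟨x', Finset.mem_of_mem_insert_of_ne hx' hxx, hqx'⟩

end Pool.Agent.W_MP_abf9c7_co
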