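import Mathlib

/-!
# Generalized Ohba numbers: definitions
-/

namespace Pool.Agent.W_MP_abf9c7_co

/-- The join `G ∨ H` of two graphs: the disjoint union of `G` and `H` together with all edges
between them. -/
def graphJoin {V W : Type*} (G : SimpleGraph V) (H : SimpleGraph W) : SimpleGraph (V ⊕ W) where
  Adj u v :=
    match u, v with
    | Sum.inl x, Sum.inl y => G.Adj x y
    | Sum.inr x, Sum.inr y => H.Adj x y
    | Sum.inl _, Sum.inr _ => True
    | Sum.inr _, Sum.inl _ => True
  symm := ⟨by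
    rintro (x | x) (y | y) h
    · exact G.symm.symm _ _ h
    · trivial
    · trivial
    · exact H.symm.symm _ _ h⟩
  loopless := ⟨by
    rintro (x | x) h
    · exact G.loopless.irrefl _ h
    · exact H.loopless.irrefl _ h⟩

/-- `G` is `k`-choosable: every assignment of lists of `k` colours to the vertices admits a proper
colouring from the lists. -/
def Choosable {V : Type*} (G : SimpleGraph V) (k : ℕ) : Prop :=
  ∀ L : V → Finset ℕ, (∀ v, (L v).card = k) →
    ∃ c : V → ℕ, (∀ v, c v ∈ L v) ∧ ∀ u v, G.Adj u v → c u ≠ c v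

/-- The list chromatic number (choice number) `χ_ℓ(G)`. -/
noncomputable def listChromaticNumber {V : Type*} (G : SimpleGraph V) : ℕ :=
  sInf {k : ℕ | Choosable G k}

/-- The graph `K_t ∨ K_{a,b}`. -/
def ohbaGraph (t a b : ℕ) : SimpleGraph (Fin t ⊕ (Fin a ⊕ Fin b)) :=
  graphJoin (⊤ : SimpleGraph (Fin t)) (completeBipartiteGraph (Fin a) (Fin b))

/-- The generalized Ohba number `τ_s(a,b)`: the least `t ≥ 0` such that
`χ_ℓ(K_t ∨ K_{a,b}) ≤ χ(K_t ∨ K_{a,b}) + s`. -/
noncomputable def ohbaNumber (s a b : ℕ) : ℕ :=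
  sInf {t : ℕ | (listChromaticNumber (ohbaGraph t a b) : ℕ∞)
    ≤ (ohbaGraph t a b).chromaticNumber + (s : ℕ∞)}

end Pool.Agent.W_MP_abf9c7_co
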