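import Pool.Agent.W_MP_abf9c7_co.Colour
import Pool.Agent.W_MP_abf9c7_co.Defs

/-!
Translation to graphs: chromatic number, choosability, upper and lower bounds.
-/

namespace Pool.Agent.W_MP_abf9c7_co

open Finset

lemma Choosable.mono {V : Type*} {G : SimpleGraph V} {k k' : ℕ} (h : Choosable G k)
    (hk : k ≤ k') : Choosable G k' := by
  intro L hL
  have h1 : ∀ v, ∃ L' ⊆ L v, L'.card = k := fun v =>
    Finset.exists_subset_card_eq (by rw [hL]; exact hk)
  choose L' hL' hcard using h1
  obtain ⟨c, hc1, hc2⟩ := h L' hcard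
  exact ⟨c, fun v => hL' v (hc1 v), hc2⟩

lemma choosable_card {V : Type*} [Fintype V] (G : SimpleGraph V) :
    Choosable G (Fintype.card V) := by
  classical
  intro L hL
  obtain ⟨f, hf1, hf2⟩ := exists_injective_choice L (fun i => by rw [hL])
  refine ⟨f, hf2, ?_⟩
  intro u v huv h
  exact huv.ne (hf1 h)

lemma listChromaticNumber_le_iff {V : Type*} [Fintype V] (G : SimpleGraph V) (k : ℕ) :
    listChromaticNumber G ≤ k ↔ Choosable G k := by
  constructor
  · intro h
    have h1 : Choosable G (listChromaticNumber G) :=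
      Nat.sInf_mem (s := {k : ℕ | Choosable G k}) ⟨_, choosable_card G⟩
    exact h1.mono h
  · intro h
    exact Nat.sInf_le h

lemma ohba_adj_ll (t a b : ℕ) (v v' : Fin t) :
    (ohbaGraph t a b).Adj (Sum.inl v) (Sum.inl v') ↔ v ≠ v' := by
  show (⊤ : SimpleGraph (Fin t)).Adj v v' ↔ v ≠ v'
  simp

lemma ohba_adj_lr (t a b : ℕ) (v : Fin t) (z : Fin a ⊕ Fin b) :
    (ohbaGraph t a b).Adj (Sum.inl v) (Sum.inr z) := trivial

lemma ohba_adj_ab (t a b : ℕ) (x : Fin a) (w : Fin b) :
    (ohbaGraph t a b).Adj (Sum.inr (Sum.inl x)) (Sum.inr (Sum.inr w)) := by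
  show (completeBipartiteGraph (Fin a) (Fin b)).Adj (Sum.inl x) (Sum.inr w)
  simp

lemma ohba_chromatic (t a b : ℕ) (ha : 1 ≤ a) (hb : 1 ≤ b) :
    (ohbaGraph t a b).chromaticNumber = ((t + 2 : ℕ) : ℕ∞) := by
  apply le_antisymm
  · apply SimpleGraph.Colorable.chromaticNumber_le
    refine ⟨SimpleGraph.Coloring.mk (fun z => match z with
      | Sum.inl v => (⟨v.1, by omega⟩ : Fin (t + 2))
      | Sum.inr (Sum.inl _) => ⟨t, by omega⟩
      | Sum.inr (Sum.inr _) => ⟨t + 1, by omega⟩) ?_⟩
    rintro (v | x | w) (v' | x' | w') h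
    · rw [ohba_adj_ll] at h
      intro h2
      apply h
      simp only [Fin.mk.injEq] at h2
      exact Fin.ext h2
    · intro h2
      simp only [Fin.mk.injEq] at h2
      have := v.2
      omega
    · intro h2
      simp only [Fin.mk.injEq] at h2
      have := v.2
      omega
    · intro h2
      simp only [Fin.mk.injEq] at h2
      have := v'.2
      omega
    · exfalso
      have h3 : (completeBipartiteGraph (Fin a) (Fin b)).Adj (Sum.inl x) (Sum.inl x') := h
      simp at h3
    · intro h2
      simp only [Fin.mk.injEq] at h2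
      omega
    · intro h2
      simp only [Fin.mk.injEq] at h2
      have := v'.2
      omega
    · intro h2
      simp only [Fin.mk.injEq] at h2
      omega
    · exfalso
      have h3 : (completeBipartiteGraph (Fin a) (Fin b)).Adj (Sum.inr w) (Sum.inr w') := h
      simp at h3
  · let f : Fin (t + 2) → Fin t ⊕ (Fin a ⊕ Fin b) := fun i =>
      if h : i.1 < t then Sum.inl ⟨i.1, h⟩
      else if i.1 = t then Sum.inr (Sum.inl ⟨0, ha⟩) else Sum.inr (Sum.inr ⟨0, hb⟩)
    apply SimpleGraph.le_chromaticNumber_of_pairwise_adj (ι := Fin (t + 2)) (by simp) f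
    intro i j hij
    have hij' : i.1 ≠ j.1 := fun h => hij (Fin.ext h)
    have hi := i.2
    have hj := j.2
    simp only [f]
    by_cases h1 : i.1 < t
    · by_cases h2 : j.1 < t
      · rw [dif_pos h1, dif_pos h2, ohba_adj_ll]
        intro h; apply hij'
        simpa using congrArg Fin.val h
      · rw [dif_pos h1, dif_neg h2]
        split_ifs <;> exact ohba_adj_lr _ _ _ _ _
    · by_cases h2 : j.1 < t
      · rw [dif_neg h1, dif_pos h2]
        split_ifs <;> exact (ohba_adj_lr _ _ _ _ _).symm
      · rw [dif_neg h1, dif_neg h2]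
        by_cases h3 : i.1 = t
        · rw [if_pos h3, if_neg (by omega)]
          exact ohba_adj_ab _ _ _ _ _
        · rw [if_neg h3, if_pos (by omega)]
          exact (ohba_adj_ab _ _ _ _ _).symm

/-- The defining property of `ohbaNumber` in terms of choosability. -/
lemma ohba_prop_iff (s t a b : ℕ) (ha : 1 ≤ a) (hb : 1 ≤ b) :
    ((listChromaticNumber (ohbaGraph t a b) : ℕ∞)
      ≤ (ohbaGraph t a b).chromaticNumber + (s : ℕ∞)) ↔ Choosable (ohbaGraph t a b) (t + 2 + s) := by
  rw [ohba_chromatic t a b ha hb, ← listChromaticNumber_le_iff]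
  norm_cast

/-- Upper bound: choosability when `b` is small compared with `t^{2m}`. -/
lemma choosable_of_core (s t a b N : ℕ) (ht : 1 ≤ t) (hm : s + 1 ≤ t) (hN : 1 ≤ N)
    (haN : a * N ≤ t)
    (hb : b * a.choose (s + 1) * a ^ (s + 1) < t.choose (s + 1) * N ^ (s + 1)) :
    Choosable (ohbaGraph t a b) (t + 2 + s) := by
  intro L hL
  obtain ⟨cK, cA, cB, h1, h2, h3, h4, h5, h6, h7⟩ := core a t (s + 1) N b ht hm hN haN
    (fun v => L (Sum.inl v)) (fun x => L (Sum.inr (Sum.inl x))) (fun w => L (Sum.inr (Sum.inr w)))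
    (fun v => by rw [hL]; omega) (fun v => by rw [hL]; omega) (fun v => by rw [hL]; omega) hb
  refine ⟨fun z => match z with
    | Sum.inl v => cK v
    | Sum.inr (Sum.inl x) => cA x
    | Sum.inr (Sum.inr w) => cB w, ?_, ?_⟩
  · rintro (v | x | w)
    · exact h1 v
    · exact h2 x
    · exact h3 w
  · rintro (v | x | w) (v' | x' | w') h
    · rw [ohba_adj_ll] at h
      intro h8; exact h (h4 h8)
    · exact fun h8 => h5 x' v h8.symm
    · exact fun h8 => h6 w' v h8.symm
    · exact fun h8 => h5 x v' h8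
    · exfalso
      have h3 : (completeBipartiteGraph (Fin a) (Fin b)).Adj (Sum.inl x) (Sum.inl x') := h
      simp at h3
    · exact fun h8 => h7 w' x h8.symm
    · exact fun h8 => h6 w v' h8
    · exact fun h8 => h7 w x' h8
    · exfalso
      have h3 : (completeBipartiteGraph (Fin a) (Fin b)).Adj (Sum.inr w) (Sum.inr w') := h
      simp at h3

/-- Lower bound construction. -/
lemma not_choosable (s t a b : ℕ) (ha : s + 2 ≤ a) (hb : (t + 2 + s) ^ (2 * s + 2) ≤ b) :
    ¬ Choosable (ohbaGraph t a b) (t + 2 + s) := by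
  classical
  intro hch
  set k := t + 2 + s with hk
  -- index set of the lists of `B`
  let Λ := {T : Finset ℕ // T ∈ (range k).powersetCard (t + 1)} × (Fin (s + 1) → Fin k)
  have hΛcard : Fintype.card Λ ≤ Fintype.card (Fin b) := by
    rw [Fintype.card_fin, Fintype.card_prod, Fintype.card_coe, Finset.card_powersetCard,
      Finset.card_range, Fintype.card_fun, Fintype.card_fin, Fintype.card_fin]
    have h1 : k.choose (t + 1) = k.choose (s + 1) := by
      rw [hk]; exact Nat.choose_symm_of_eq_add (by omega)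
    rw [h1]
    calc k.choose (s + 1) * k ^ (s + 1) ≤ k ^ (s + 1) * k ^ (s + 1) :=
          Nat.mul_le_mul_right _ (Nat.choose_le_pow k (s + 1))
      _ = k ^ (2 * s + 2) := by rw [← pow_add]; congr 1; omega
      _ ≤ b := hb
  obtain ⟨emb⟩ := Function.Embedding.nonempty_of_card_le hΛcard
  have hkpos : 0 < k := by omega
  have hΛne : Nonempty Λ := by
    refine ⟨⟨⟨range (t + 1), ?_⟩, fun _ => ⟨0, hkpos⟩⟩⟩
    rw [Finset.mem_powersetCard]
    refine ⟨?_, Finset.card_range _⟩
    intro z hz
    rw [Finset.mem_range] at hz ⊢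
    omega
  let F : Fin b → Λ := Function.invFun emb
  have hF : Function.Surjective F := Function.invFun_surjective emb.injective
  -- the lists
  let LA : Fin a → Finset ℕ := fun x => (range k).image (fun i => k * x.1 + i)
  let G' : Λ → Finset ℕ := fun l =>
    l.1.1 ∪ Finset.univ.image (fun i : Fin (s + 1) => k * (i.1 + 1) + (l.2 i).1)
  let L : Fin t ⊕ (Fin a ⊕ Fin b) → Finset ℕ := fun z => match z with
    | Sum.inl _ => range k
    | Sum.inr (Sum.inl x) => LA x
    | Sum.inr (Sum.inr w) => G' (F w)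
  have hLAcard : ∀ x, (LA x).card = k := by
    intro x
    simp only [LA]
    rw [Finset.card_image_of_injective _ (fun i j h => by simpa using h), Finset.card_range]
  have hGcard : ∀ l, (G' l).card = k := by
    intro l
    have hl := l.1.2
    rw [Finset.mem_powersetCard] at hl
    simp only [G']
    rw [Finset.card_union_of_disjoint, hl.2, Finset.card_image_of_injective, Finset.card_univ,
      Fintype.card_fin]
    · omega
    · intro i j h
      simp only at h
      have hi := (l.2 i).2
      have hj := (l.2 j).2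
      have h1 : (k * (i.1 + 1) + (l.2 i).1) / k = i.1 + 1 := by
        rw [Nat.mul_add_div hkpos, Nat.div_eq_of_lt hi, add_zero]
      have h2 : (k * (j.1 + 1) + (l.2 j).1) / k = j.1 + 1 := by
        rw [Nat.mul_add_div hkpos, Nat.div_eq_of_lt hj, add_zero]
      rw [h, h2] at h1
      apply Fin.ext
      omega
    · rw [Finset.disjoint_left]
      intro z hz1 hz2
      have h1 := Finset.mem_range.mp (hl.1 hz1)
      obtain ⟨i, -, hi⟩ := Finset.mem_image.mp hz2
      have h2 : k * 1 ≤ k * (i.1 + 1) := Nat.mul_le_mul_left k (by omega)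
      omega
  obtain ⟨c, hc1, hc2⟩ := hch L (by
    rintro (v | x | w)
    · exact Finset.card_range k
    · exact hLAcard x
    · exact hGcard (F w))
  -- colours of `K ∪ {x_0}`
  have hs0 : 0 < a := by omega
  let x0 : Fin a := ⟨0, hs0⟩
  let e : Option (Fin t) → Fin t ⊕ (Fin a ⊕ Fin b) := fun o => match o with
    | none => Sum.inr (Sum.inl x0)
    | some v => Sum.inl v
  have heinj : Function.Injective (fun o => c (e o)) := by
    rintro (_ | v) (_ | v') h
    · rfl
    · exact absurd h (hc2 _ _ (ohba_adj_lr t a b v' (Sum.inl x0)).symm)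
    · exact absurd h (hc2 _ _ (ohba_adj_lr t a b v (Sum.inl x0)))
    · by_contra hne
      apply hc2 (Sum.inl v) (Sum.inl v') _ h
      rw [ohba_adj_ll]
      intro h2; apply hne; rw [h2]
  let T : Finset ℕ := Finset.univ.image (fun o => c (e o))
  have hTcard : T.card = t + 1 := by
    simp only [T]
    rw [Finset.card_image_of_injective _ heinj, Finset.card_univ, Fintype.card_option,
      Fintype.card_fin]
  have hTsub : T ⊆ range k := by
    intro z hz
    obtain ⟨o, -, ho⟩ := Finset.mem_image.mp hz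
    rw [← ho]
    rcases o with _ | v
    · have h1 : c (e none) ∈ LA x0 := hc1 (Sum.inr (Sum.inl x0))
      simp only [LA, Finset.mem_image, Finset.mem_range] at h1
      obtain ⟨i, hi, hi2⟩ := h1
      rw [Finset.mem_range]
      have h3 : x0.1 = 0 := rfl
      rw [h3, Nat.mul_zero, Nat.zero_add] at hi2
      omega
    · exact hc1 (Sum.inl v)
  -- colours of the other vertices of `A`
  let xi : Fin (s + 1) → Fin a := fun i => ⟨i.1 + 1, by have := i.2; omega⟩
  have hg : ∀ i : Fin (s + 1), ∃ j : Fin k, c (Sum.inr (Sum.inl (xi i))) = k * (i.1 + 1) + j.1 := by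
    intro i
    have h1 : c (Sum.inr (Sum.inl (xi i))) ∈ LA (xi i) := hc1 (Sum.inr (Sum.inl (xi i)))
    simp only [LA, Finset.mem_image, Finset.mem_range] at h1
    obtain ⟨j, hj, hj2⟩ := h1
    exact ⟨⟨j, hj⟩, hj2.symm⟩
  choose g hg using hg
  obtain ⟨w, hw⟩ := hF ⟨⟨T, Finset.mem_powersetCard.mpr ⟨hTsub, hTcard⟩⟩, g⟩
  have hcw : c (Sum.inr (Sum.inr w)) ∈ G' (F w) := hc1 (Sum.inr (Sum.inr w))
  rw [hw] at hcw
  simp only [G', Finset.mem_union] at hcw
  rcases hcw with h1 | h1
  · obtain ⟨o, -, ho⟩ := Finset.mem_image.mp h1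
    rcases o with _ | v
    · exact hc2 _ _ (ohba_adj_ab t a b x0 w) ho
    · exact hc2 _ _ (ohba_adj_lr t a b v (Sum.inr w)) ho
  · obtain ⟨i, -, hi⟩ := Finset.mem_image.mp h1
    apply hc2 _ _ (ohba_adj_ab t a b (xi i) w)
    rw [hg i]; exact hi

end Pool.Agent.W_MP_abf9c7_co
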